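import Mathlib
import Pool.Agent.H70.SR.Defs
import Pool.Agent.H70.SR.Main

/-!
# The regular conjugate locus of a sub-Riemannian manifold need not be a submanifold

On `ℝ³` with coordinates `(x, y, z)` let `f' = y₀'' + 12 y₀` with `y₀(t) = t²(1-t)²`, `f(0) = 0`,
and consider the rank two sub-Riemannian structure with the real-analytic orthonormal frame
`√(1+12y²) ∂_x`, `∂_y + f(x) ∂_z`.  Its exponential map at the origin is defined and smooth on the
whole cotangent space.  The covector `(1, 0, 0)` is a regular conjugate covector of order one, but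
near it the regular conjugate locus is not a submanifold, of any dimension and not even of class
`C¹`: it has a cusp.
-/

open scoped ContDiff Topology
open Set

namespace Pool.Agent.Results.MP_c4e502_gt.CuspLocus

open Pool.Agent.H70.SR

lemma f_an : ContDiff ℝ ω f := by unfold f; fun_prop

lemma X0_an : ContDiff ℝ ω X0 := by
  rw [contDiff_pi]
  intro i; fin_cases i
  · refine ContDiff.sqrt (by fun_prop) fun q => ?_
    positivity
  · exact contDiff_const
  · exact contDiff_const

lemma X1_an : ContDiff ℝ ω X1 := by
  rw [contDiff_pi]
  intro i; fin_cases i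
  · exact contDiff_const
  · exact contDiff_const
  · exact f_an.comp (by fun_prop : ContDiff ℝ ω fun q : P => q 0)

/-- **Q1 has a negative answer.**  There is a sub-Riemannian structure of rank two on `ℝ³`, with a
real-analytic global orthonormal frame, whose exponential map `ex` at the origin is defined on the
whole cotangent space and smooth, and a regular conjugate covector `l` of order one, such that near
`l` the regular conjugate locus is not an embedded submanifold of class `C¹` (hence not of any class
`C^k`, `1 ≤ k ≤ ∞`). -/
theorem result :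
    ∃ (S : Structure 3 2) (ex : R 3 → R 3) (l : R 3),
      (∀ i, ContDiff ℝ ω (S.X i)) ∧
      S.IsExp 0 ex ∧ (∀ ex', S.IsExp 0 ex' → ex' = ex) ∧ ContDiff ℝ ∞ ex ∧
      l ∈ regularLocus ex ∧
      Module.finrank ℝ (LinearMap.ker (fderiv ℝ ex l).toLinearMap) = 1 ∧
      ¬ IsSubmanifoldAt 1 (regularLocus ex) l ∧
      ∀ k : WithTop ℕ∞, 1 ≤ k → ¬ IsSubmanifold k (regularLocus ex) := by
  refine ⟨S3, ex, l0, ?_, isExp, fun _ h => isExp_unique h, ex_smooth, main.1, ?_, main.2, ?_⟩
  · intro i; fin_cases i
    · exact X0_an
    · exact X1_an
  · rw [ker_l0]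
    refine finrank_span_singleton ?_
    intro h
    have := congrFun h 2
    simp at this
  · intro k hk h
    obtain ⟨φ, h1, h2, h3, h4⟩ := h l0 main.1
    exact main.2 ⟨φ, h1, h2.of_le hk, h3.of_le hk, h4⟩

end Pool.Agent.Results.MP_c4e502_gt.CuspLocus
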